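import Pool.Agent.KS6_21.PONG.Spaces

set_option autoImplicit false

namespace Pool.Agent.Results.MP_4977a6_gt.AllUncountableCardinals

open Set Cardinal Pool.Agent.KS6_21.PONG

/-- (1) For a cardinal `κ` there is a Menger space of cardinality `κ` on which Bob has a winning
strategy in `PONAG` but no winning strategy in the Menger game if and only if `κ` is uncountable.
(2) For uncountable `κ` the space can be taken to be a zero-dimensional Hausdorff (hence regular)
Lindelöf `P`-space.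
(3) On every `T₁` Lindelöf `P`-space (these spaces are Menger) Bob has a winning strategy in
`PONAG`. -/
theorem result :
    (∀ κ : Cardinal.{0}, (∃ (X : Type) (_ : TopologicalSpace X),
      #X = κ ∧ Menger X ∧ BobWinsP X ∧ ¬ BobWinsM X) ↔ ℵ₁ ≤ κ) ∧
    (∀ κ : Cardinal.{0}, ℵ₁ ≤ κ → ∃ (X : Type) (_ : TopologicalSpace X),
      #X = κ ∧ T2Space X ∧ ZeroDim X ∧ RegularSpace X ∧ LindelofSpace X ∧ PSp X ∧
        Menger X ∧ BobWinsP X ∧ ¬ BobWinsM X) ∧
    (∀ (X : Type) [TopologicalSpace X] [T1Space X] [LindelofSpace X], PSp X →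
      Menger X ∧ BobWinsP X) := by
  have h2 : ∀ κ : Cardinal.{0}, ℵ₁ ≤ κ → ∃ (X : Type) (_ : TopologicalSpace X),
      #X = κ ∧ T2Space X ∧ ZeroDim X ∧ RegularSpace X ∧ LindelofSpace X ∧ PSp X ∧
        Menger X ∧ BobWinsP X ∧ ¬ BobWinsM X := by
    intro κ hκ
    obtain ⟨X, t, h1, h2, h3, h4⟩ := exists_space κ.out (by rw [mk_out]; exact hκ)
    refine ⟨X, t, by rw [h1, mk_out], h2, h3, ?_, h4⟩
    refine RegularSpace.of_exists_mem_nhds_isClosed_subset fun x s hs => ?_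
    obtain ⟨U, e1, e2, e3⟩ := mem_nhds_iff.1 hs
    obtain ⟨V, v1, v2, v3⟩ := h3 U e2 x e3
    exact ⟨V, v1.isOpen.mem_nhds v2, v1.isClosed, v3.trans e1⟩
  refine ⟨fun κ => ⟨?_, fun hκ => ?_⟩, h2, fun X _ _ _ hP => ⟨menger hP, bobWinsP hP⟩⟩
  · rintro ⟨X, t, hX, -, -, h⟩
    by_contra hκ
    rw [not_le, ← hX, lt_aleph_one_iff, mk_le_aleph0_iff] at hκ
    exact h bobWinsM_of_countable
  · obtain ⟨X, t, h1, -, -, -, -, -, h⟩ := h2 κ hκ
    exact ⟨X, t, h1, h⟩

end Pool.Agent.Results.MP_4977a6_gt.AllUncountableCardinals
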